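import Mathlib

namespace Pool.Agent.Results.MP_5c8dfa_al.NoBound

/-- abstract form of the examples -/
lemma tower (k : ℕ) : ∃ (Ω : Type) (_ : Fintype Ω) (_ : Nonempty Ω) (Γ : Type) (_ : Group Γ)
    (ρ : Γ →* Equiv.Perm Ω) (H : Type) (_ : CommGroup H) (_ : Fintype H) (φ : Γ →* H),
    Function.Injective ρ ∧ (∀ x y, ∃ g, ρ g x = y) ∧ Fintype.card H = 2 ^ k ∧
      ∀ Δ : Set Ω, ∀ h : H, ∃ g : Γ, (∀ x, ρ g x ∈ Δ ↔ x ∈ Δ) ∧ φ g = h := by
  classical
  induction k with
  | zero =>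
    exact ⟨Unit, inferInstance, inferInstance, Unit, inferInstance, 1, Unit, inferInstance,
      inferInstance, 1, fun _ _ _ => rfl, fun _ _ => ⟨1, rfl⟩, rfl,
      fun _ _ => ⟨1, fun _ => Iff.rfl, rfl⟩⟩
  | succ k ih =>
    obtain ⟨Ω, _, ⟨x0⟩, Γ, _, ρ, H, _, _, φ, hρ, htr, hc, hP⟩ := ih
    let I := Option (Set Ω)
    let a : Equiv.Perm I →* MulAut (I → Γ) := mulAutArrow
    have ha : ∀ (π : Equiv.Perm I) (g : I → Γ) (i : I), a π g i = g (π⁻¹ i) := fun _ _ _ => rfl
    let W := (I → Γ) ⋊[a] Equiv.Perm I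
    let act : W → I × Ω → I × Ω := fun w z => (w.right z.1, ρ (w.left (w.right z.1)) z.2)
    have act1 : ∀ z, act 1 z = z := by intro z; simp [act, W]
    have actm : ∀ v w z, act (v * w) z = act v (act w z) := by
      intro v w z
      simp [act, W, ha]
    let ρ' : W →* Equiv.Perm (I × Ω) :=
      { toFun := fun w => ⟨act w, act w⁻¹, fun z => by rw [← actm, inv_mul_cancel, act1],
          fun z => by rw [← actm, mul_inv_cancel, act1]⟩
        map_one' := Equiv.ext act1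
        map_mul' := fun v w => Equiv.ext (actm v w) }
    have hρ' : ∀ w z, ρ' w z = (w.right z.1, ρ (w.left (w.right z.1)) z.2) := fun _ _ => rfl
    let φ' : W →* H × ℤˣ :=
      { toFun := fun w => (∏ i, φ (w.left i), Equiv.Perm.sign w.right)
        map_one' := by simp [W]
        map_mul' := fun v w => by
          refine Prod.ext ?_ (by simp [W])
          simp only [W, SemidirectProduct.mul_left, Pi.mul_apply, map_mul, Finset.prod_mul_distrib,
            Prod.fst_mul, ha]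
          congr 1
          exact Equiv.prod_comp v.right⁻¹ (fun i => φ (w.left i)) }
    have hφ' : ∀ w, φ' w = (∏ i, φ (w.left i), Equiv.Perm.sign w.right) := fun _ => rfl
    refine ⟨I × Ω, inferInstance, ⟨(none, x0)⟩, W, inferInstance, ρ', H × ℤˣ, inferInstance,
      inferInstance, φ', ?_, ?_, ?_, ?_⟩
    · rw [injective_iff_map_eq_one]
      intro w hw
      have h1 : ∀ z, (w.right z.1, ρ (w.left (w.right z.1)) z.2) = z := by
        intro z; rw [← hρ', hw]; rfl
      have h2 : w.right = 1 := Equiv.ext fun i => congrArg Prod.fst (h1 (i, x0))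
      have h3 : w.left = 1 := by
        funext i
        apply hρ
        refine Equiv.ext fun x => ?_
        have := congrArg Prod.snd (h1 (i, x))
        simpa [h2] using this
      exact SemidirectProduct.ext h3 h2
    · rintro ⟨i, x⟩ ⟨j, y⟩
      obtain ⟨g, hg⟩ := htr x y
      exact ⟨⟨fun _ => g, Equiv.swap i j⟩, by simp [hρ', hg]⟩
    · rw [Fintype.card_prod, hc, Fintype.card_units_int, pow_succ]
    · rintro Δ ⟨h, u⟩
      obtain ⟨i, j, hij, hS⟩ := Fintype.exists_ne_map_eq_of_card_lt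
        (fun i : I => {x | (i, x) ∈ Δ}) (by simp [I])
      have hS' : ∀ x, (i, x) ∈ Δ ↔ (j, x) ∈ Δ := fun x => Set.ext_iff.1 hS x
      obtain ⟨g, hg1, hg2⟩ := hP {x | (i, x) ∈ Δ} h
      have hg1' : ∀ x, (i, ρ g x) ∈ Δ ↔ (i, x) ∈ Δ := hg1
      have hprod : ∏ l, φ ((Pi.mulSingle i g : I → Γ) l) = h := by
        rw [Finset.prod_eq_single i]
        · simp [hg2]
        · intro b _ hb; simp [hb]
        · simp
      rcases Int.units_eq_one_or u with rfl | rfl
      · refine ⟨⟨Pi.mulSingle i g, 1⟩, ?_, by simp [hφ', hprod]⟩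
        rintro ⟨l, x⟩
        by_cases hl : l = i
        · subst hl; simp [hρ', hg1']
        · simp [hρ', hl]
      · refine ⟨⟨Pi.mulSingle i g, Equiv.swap i j⟩, ?_, by simp [hφ', hprod, hij]⟩
        rintro ⟨l, x⟩
        by_cases hl : l = i
        · subst hl; simp [hρ', hij.symm, hS']
        · by_cases hl' : l = j
          · subst hl'; simp [hρ', hg1', hS']
          · simp [hρ', hl, Equiv.swap_apply_of_ne_of_ne hl hl']

theorem result : ∀ C : ℕ, ∃ (Ω : Type) (_ : Finite Ω) (G : Subgroup (Equiv.Perm Ω))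
    (H : Type) (_ : Group H) (_ : Finite H) (φ : G →* H),
    (∀ x y : Ω, ∃ g ∈ G, g x = y) ∧ Function.Surjective φ ∧ C ≤ Nat.card H ∧
      ∀ Δ : Set Ω, ∀ h : H, ∃ g : G, (g : Equiv.Perm Ω) '' Δ = Δ ∧ φ g = h := by
  intro C
  obtain ⟨Ω, _, _, Γ, _, ρ, H, _, _, φ, hρ, htr, hc, hP⟩ := tower C
  let φ' : ρ.range →* H := φ.comp (MonoidHom.ofInjective hρ).symm.toMonoidHom
  have key : ∀ Δ : Set Ω, ∀ h : H, ∃ g : ρ.range, (g : Equiv.Perm Ω) '' Δ = Δ ∧ φ' g = h := by
    intro Δ h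
    obtain ⟨g, hm, hg⟩ := hP Δ h
    refine ⟨MonoidHom.ofInjective hρ g, ?_, by simp [φ', hg]⟩
    ext z
    constructor
    · rintro ⟨w, hw, rfl⟩; exact (hm w).2 hw
    · intro hz
      refine ⟨(ρ g).symm z, (hm _).1 (by simpa using hz), ?_⟩
      change ρ g _ = _
      simp
  refine ⟨Ω, inferInstance, ρ.range, H, inferInstance, inferInstance, φ', ?_,
    fun h => (key ∅ h).imp fun _ hg => hg.2, ?_, key⟩
  · intro x y
    obtain ⟨g, hg⟩ := htr x y
    exact ⟨ρ g, ⟨g, rfl⟩, hg⟩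
  · rw [Nat.card_eq_fintype_card, hc]
    exact Nat.lt_two_pow_self.le

end Pool.Agent.Results.MP_5c8dfa_al.NoBound
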